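import Mathlib
import Pool.Agent.K3h75.ND.StmN

/-! ND project (brick E1): the singular members of a pencil are zeros of a characteristic
polynomial. -/

set_option autoImplicit false

namespace Pool.Agent.K3h97.ND

open MvPolynomial Pool.Agent.K3h75.ND

/-- the exponent -/
noncomputable def mexp {n d : ℕ} (m : Mon n d) : Fin n →₀ ℕ := m.1

theorem mexp_degree {n d : ℕ} (m : Mon n d) : (mexp m).degree = d := m.2

theorem mexp_inj {n d : ℕ} {m m' : Mon n d} (h : mexp m = mexp m') : m = m' := Subtype.ext h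

/-- the monomial with a given exponent -/
noncomputable def mkMon {n d : ℕ} (s : Fin n →₀ ℕ) (h : s.degree = d) : Mon n d := ⟨s, h⟩

theorem mexp_mk {n d : ℕ} (s : Fin n →₀ ℕ) (h : s.degree = d) : mexp (mkMon s h) = s := rfl

theorem isPow_iff {N d : ℕ} (m : Mon (N + 1) d) : IsPow m ↔ ∃ i, mexp m = Finsupp.single i d :=
  Iff.rfl

/-- the value of a monomial -/
noncomputable def xp {n : ℕ} {k : Type} [CommRing k] (x : Fin n → k) (s : Fin n →₀ ℕ) : k :=
  s.prod fun i e => x i ^ e

theorem xp_add {n : ℕ} {k : Type} [CommRing k] (x : Fin n → k) (s t : Fin n →₀ ℕ) :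
    xp x (s + t) = xp x s * xp x t := by
  rw [xp, xp, xp]
  apply Finsupp.prod_add_index'
  · intro i; exact pow_zero _
  · intro i a b; exact pow_add _ _ _

theorem xp_single {n : ℕ} {k : Type} [CommRing k] (x : Fin n → k) (i : Fin n) (e : ℕ) :
    xp x (Finsupp.single i e) = x i ^ e := by
  rw [xp]
  exact Finsupp.prod_single_index (pow_zero _)

theorem eval_pderiv_form {n d : ℕ} {k : Type} [CommRing k] (a : Mon n d → k) (x : Fin n → k)
    (i : Fin n) : eval x (pderiv i (form a)) =
      ∑ m : Mon n d, a m * (mexp m i : k) * xp x (mexp m - Finsupp.single i 1) := by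
  rw [form, map_sum, map_sum]
  apply Finset.sum_congr rfl
  intro m _
  rw [pderiv_monomial, eval_monomial]
  rfl

theorem exists_big {N d : ℕ} (hd : 2 ≤ d) (μ : Mon (N + 1) ((N + 1) * (d - 2) + 1)) :
    ∃ i, d - 1 ≤ mexp μ i := by
  by_contra hcon
  push Not at hcon
  have h1 := mexp_degree μ
  rw [Finsupp.degree_eq_sum] at h1
  have h2 : ∑ i, mexp μ i ≤ ∑ i : Fin (N + 1), (d - 2) :=
    Finset.sum_le_sum (fun i _ => by have := hcon i; omega)
  rw [Finset.sum_const, Finset.card_univ, Fintype.card_fin, smul_eq_mul] at h2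
  omega

open Classical in
/-- the derivative of the power part -/
theorem pow_part {N d : ℕ} (hd : 2 ≤ d) {k : Type} [CommRing k] (c : k) (x : Fin (N + 1) → k)
    (i : Fin (N + 1)) :
    ∑ m : Mon (N + 1) d, (if IsPow m then c else 0) * (mexp m i : k) *
      xp x (mexp m - Finsupp.single i 1) = (d : k) * c * x i ^ (d - 1) := by
  have hdeg : (Finsupp.single i d : Fin (N + 1) →₀ ℕ).degree = d := Finsupp.degree_single _ _
  rw [Finset.sum_eq_single (mkMon _ hdeg)]
  · have h1 : IsPow (mkMon _ hdeg) := ⟨i, rfl⟩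
    rw [if_pos h1]
    have h2 : (Finsupp.single i d : Fin (N + 1) →₀ ℕ) - Finsupp.single i 1 =
        Finsupp.single i (d - 1) := by
      rw [Finsupp.single_tsub]
    rw [mexp_mk, h2, xp_single, Finsupp.single_eq_same]
    ring
  · intro m _ hm
    by_cases h1 : IsPow m
    · obtain ⟨j, hj⟩ := (isPow_iff m).1 h1
      have h2 : j ≠ i := by
        rintro rfl
        exact hm (mexp_inj hj)
      have h3 : mexp m i = 0 := by
        rw [hj]
        exact Finsupp.single_eq_of_ne (Ne.symm h2)
      rw [h3]; simp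
    · rw [if_neg h1]; simp
  · intro h; exact absurd (Finset.mem_univ _) h

/-- the critical equations -/
theorem crit {N d : ℕ} (hd : 2 ≤ d) {k : Type} [CommRing k] (b : Idx N d → k) (c : k)
    (x : Fin (N + 1) → k) (i : Fin (N + 1)) (h : eval x (pderiv i (pform b c)) = 0) :
    (d : k) * c * x i ^ (d - 1) =
      ∑ m : Mon (N + 1) d, -(pcoef b 0 m * (mexp m i : k)) * xp x (mexp m - Finsupp.single i 1) := by
  classical
  rw [pform, eval_pderiv_form] at h
  have h1 : ∀ m : Mon (N + 1) d, pcoef b c m * (mexp m i : k) * xp x (mexp m - Finsupp.single i 1) =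
      pcoef b 0 m * (mexp m i : k) * xp x (mexp m - Finsupp.single i 1) +
      (if IsPow m then c else 0) * (mexp m i : k) * xp x (mexp m - Finsupp.single i 1) := by
    intro m
    rw [pcoef, pcoef]
    by_cases h2 : IsPow m
    · simp only [h2, if_true]; ring
    · simp only [h2, if_false]; ring
  rw [Finset.sum_congr rfl (fun m _ => h1 m), Finset.sum_add_distrib, pow_part hd] at h
  have h3 : ∑ m : Mon (N + 1) d, -(pcoef b 0 m * (mexp m i : k)) * xp x (mexp m - Finsupp.single i 1) =
      - ∑ m : Mon (N + 1) d, pcoef b 0 m * (mexp m i : k) * xp x (mexp m - Finsupp.single i 1) := by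
    rw [← Finset.sum_neg_distrib]
    apply Finset.sum_congr rfl
    intro m _; ring
  rw [h3]
  linear_combination h

open Classical in
/-- the multiplication matrix -/
noncomputable def mat (N d : ℕ) {R : Type} [CommRing R] (b : Idx N d → R)
    (ix : Mon (N + 1) ((N + 1) * (d - 2) + 1) → Fin (N + 1)) :
    Matrix (Mon (N + 1) ((N + 1) * (d - 2) + 1)) (Mon (N + 1) ((N + 1) * (d - 2) + 1)) R :=
  fun μ ν => ∑ m : Mon (N + 1) d,
    if mexp m (ix μ) ≠ 0 ∧ mexp ν = (mexp μ - Finsupp.single (ix μ) (d - 1)) +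
      (mexp m - Finsupp.single (ix μ) 1) then -(pcoef b 0 m * (mexp m (ix μ) : R)) else 0

theorem pcoef_map {N d : ℕ} {R S : Type} [CommRing R] [CommRing S] (f : R →+* S)
    (b : Idx N d → R) (m : Mon (N + 1) d) :
    f (pcoef b 0 m) = pcoef (fun j => f (b j)) 0 m := by
  classical
  rw [pcoef, pcoef, map_add]
  congr 1
  · split_ifs
    · exact map_zero f
    · rfl
  · split_ifs
    · exact map_zero f
    · exact map_zero f

theorem mat_map {N d : ℕ} {R S : Type} [CommRing R] [CommRing S] (f : R →+* S)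
    (b : Idx N d → R) (ix : Mon (N + 1) ((N + 1) * (d - 2) + 1) → Fin (N + 1)) :
    (mat N d b ix).map f = mat N d (fun j => f (b j)) ix := by
  classical
  ext μ ν
  rw [Matrix.map_apply, mat, mat, map_sum]
  apply Finset.sum_congr rfl
  intro m _
  split_ifs
  · rw [map_neg, map_mul, pcoef_map, map_natCast]
  · exact map_zero f

theorem mat_mulVec {N d : ℕ} (hd : 2 ≤ d) {k : Type} [CommRing k] (b : Idx N d → k) (c : k)
    (x : Fin (N + 1) → k) (h : ∀ i, eval x (pderiv i (pform b c)) = 0)
    (ix : Mon (N + 1) ((N + 1) * (d - 2) + 1) → Fin (N + 1))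
    (hix : ∀ μ : Mon (N + 1) ((N + 1) * (d - 2) + 1), d - 1 ≤ mexp μ (ix μ)) (μ : Mon (N + 1) ((N + 1) * (d - 2) + 1)) :
    (mat N d b ix).mulVec (fun ν => xp x (mexp ν)) μ = (d : k) * c * xp x (mexp μ) := by
  classical
  have h1 : mexp μ = (mexp μ - Finsupp.single (ix μ) (d - 1)) + Finsupp.single (ix μ) (d - 1) := by
    rw [tsub_add_cancel_of_le]
    rw [Finsupp.single_le_iff]
    exact hix μ
  have h2 : (d : k) * c * xp x (mexp μ) = xp x (mexp μ - Finsupp.single (ix μ) (d - 1)) *
      ((d : k) * c * x (ix μ) ^ (d - 1)) := by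
    conv_lhs => rw [h1]
    rw [xp_add, xp_single]; ring
  rw [h2, crit hd b c x (ix μ) (h _), Finset.mul_sum, Matrix.mulVec, dotProduct]
  simp only [mat]
  simp_rw [Finset.sum_mul]
  rw [Finset.sum_comm]
  apply Finset.sum_congr rfl
  intro m _
  by_cases h3 : mexp m (ix μ) = 0
  · rw [h3]
    simp
  · have hdeg : ((mexp μ - Finsupp.single (ix μ) (d - 1)) +
        (mexp m - Finsupp.single (ix μ) 1)).degree = (N + 1) * (d - 2) + 1 := by
      have e1 := mexp_degree μ
      have e2 := mexp_degree m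
      have e3 : mexp m = (mexp m - Finsupp.single (ix μ) 1) + Finsupp.single (ix μ) 1 := by
        rw [tsub_add_cancel_of_le]
        rw [Finsupp.single_le_iff]
        omega
      have e4 : (mexp m - Finsupp.single (ix μ) 1).degree + 1 = d := by
        have e6 := congrArg Finsupp.degree e3
        rw [map_add, Finsupp.degree_single, e2] at e6
        exact e6.symm
      have e5 : (mexp μ - Finsupp.single (ix μ) (d - 1)).degree + (d - 1) =
          (N + 1) * (d - 2) + 1 := by
        have e6 := congrArg Finsupp.degree h1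
        rw [map_add, Finsupp.degree_single, e1] at e6
        exact e6.symm
      rw [map_add]
      omega
    rw [Finset.sum_eq_single (mkMon _ hdeg)]
    · rw [if_pos ⟨h3, rfl⟩, mexp_mk, xp_add]
      ring
    · intro ν _ hν
      rw [if_neg, zero_mul]
      rintro ⟨_, h4⟩
      exact hν (mexp_inj h4)
    · intro h; exact absurd (Finset.mem_univ _) h

theorem t_E1 : S_E1 := by
  classical
  intro N d hd
  choose ix hix using fun μ => exists_big (N := N) hd μ
  refine ⟨(mat N d (fun j => (X j : MvPolynomial (Idx N d) ℤ)) ix).charpoly,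
    Matrix.charpoly_monic _, ?_⟩
  intro k _ b c x hx h
  rw [ev, ← Matrix.charpoly_map, Matrix.eval_charpoly, mat_map]
  have h1 : (fun j => (eval₂Hom (Int.castRingHom k) b) (X j : MvPolynomial (Idx N d) ℤ)) = b := by
    ext j; exact eval₂Hom_X' _ _ _
  rw [h1]
  apply Matrix.exists_mulVec_eq_zero_iff.1
  refine ⟨fun ν => xp x (mexp ν), ?_, ?_⟩
  · obtain ⟨j, hj⟩ := Function.ne_iff.1 hx
    intro h2
    have h3 := congrFun h2 (mkMon (Finsupp.single j ((N + 1) * (d - 2) + 1))
      (Finsupp.degree_single _ _))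
    simp only [mexp_mk, xp_single] at h3
    exact hj (pow_eq_zero_iff (by omega) |>.1 h3)
  · rw [Matrix.sub_mulVec]
    ext μ
    rw [Pi.sub_apply, mat_mulVec hd b c x h ix hix μ]
    simp [Matrix.scalar_apply, Matrix.mulVec_diagonal]

end Pool.Agent.K3h97.ND
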