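import Mathlib
import Pool.Agent.K3h75.ND.StmN

/-! ND project (brick EKA + EKB): zeros modulo `p` in residue classes. -/

set_option autoImplicit false

namespace Pool.Agent.K3h97.ND

open MvPolynomial Pool.Agent.K3h75.ND

/-- integers with the same class modulo `M` in the same block of length `M` are equal -/
theorem eq_of_div {M c c' H : ℤ} (h : M ∣ c - c') (hd : (c + H) / M = (c' + H) / M) :
    c = c' := by
  have h1 : (c + H) % M = (c' + H) % M := by
    apply Int.emod_emod_of_dvd .. |>.symm.trans _ |>.trans (Int.emod_emod_of_dvd ..)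
    all_goals try exact dvd_rfl
    rw [Int.emod_emod_of_dvd _ dvd_rfl, Int.emod_emod_of_dvd _ dvd_rfl]
    apply Int.emod_emod_of_dvd .. |>.symm.trans _ |>.trans (Int.emod_emod_of_dvd ..)
    all_goals try exact dvd_rfl
    have h4 : c + H = (c' + H) + M * ((c - c') / M) := by
      rw [Int.mul_ediv_cancel' h]; ring
    rw [h4, Int.add_mul_emod_self_left]
  have h2 := Int.emod_add_mul_ediv (c + H) M
  have h3 := Int.emod_add_mul_ediv (c' + H) M
  rw [hd, h1] at h2
  linarith

/-- the index of a block -/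
theorem block_mem {M : ℕ} (hM : 0 < M) {c : ℤ} {H : ℕ} (hc : |c| ≤ H) :
    ((c + H) / (M : ℤ)).toNat ∈ Finset.range (2 * H / M + 1) := by
  rw [Finset.mem_range, Nat.lt_succ_iff]
  have h1 := abs_le.1 hc
  have h2 : (c + H) / (M : ℤ) ≤ (2 * H : ℤ) / (M : ℤ) := by
    apply Int.ediv_le_ediv (by exact_mod_cast hM)
    linarith
  have h3 : ((2 * H / M : ℕ) : ℤ) = (2 * H : ℤ) / (M : ℤ) := by push_cast; rfl
  rw [Int.toNat_le, h3]
  exact h2

theorem block_inj {M : ℕ} (hM : 0 < M) {c c' : ℤ} {H : ℕ} (hc : |c| ≤ H) (hc' : |c'| ≤ H)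
    (h : ((c + H) / (M : ℤ)).toNat = ((c' + H) / (M : ℤ)).toNat) :
    (c + H) / (M : ℤ) = (c' + H) / (M : ℤ) := by
  have h1 := abs_le.1 hc
  have h2 := abs_le.1 hc'
  have h3 : 0 ≤ (c + H) / (M : ℤ) := Int.ediv_nonneg (by linarith) (by positivity)
  have h4 : 0 ≤ (c' + H) / (M : ℤ) := Int.ediv_nonneg (by linarith) (by positivity)
  rw [← Int.toNat_of_nonneg h3, ← Int.toNat_of_nonneg h4, h]

/-- the same class modulo `p` and modulo `Q` -/
theorem dvd_of_both {p Q : ℕ} (hp : p.Prime) (hpQ : ¬ p ∣ Q) {c c' c₀ : ℤ} (h1 : (Q : ℤ) ∣ c - c₀)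
    (h2 : (Q : ℤ) ∣ c' - c₀) (h3 : (c : ZMod p) = (c' : ZMod p)) :
    ((p * Q : ℕ) : ℤ) ∣ c - c' := by
  have h4 : (p : ℤ) ∣ c - c' := by
    rw [← ZMod.intCast_zmod_eq_zero_iff_dvd]
    push_cast
    rw [h3, sub_self]
  have h5 : (Q : ℤ) ∣ c - c' := by
    have := dvd_sub h1 h2
    have e : c - c₀ - (c' - c₀) = c - c' := by ring
    rwa [e] at this
  push_cast
  apply IsCoprime.mul_dvd _ h4 h5
  rw [Nat.isCoprime_iff_coprime]
  exact (Nat.Prime.coprime_iff_not_dvd hp).2 hpQ

theorem t_EKB : S_EKB := by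
  classical
  intro Q p hQ hp hpQ δ hδ c₀ H f hf
  have : Fact p.Prime := ⟨hp⟩
  set F := f.map (Int.castRingHom (ZMod p)) with hF
  have hF0 : F ≠ 0 := (hf.map _).ne_zero
  have hM : 0 < p * Q := Nat.mul_pos hp.pos hQ
  have h1 : ({c : ℤ | |c| ≤ H ∧ (Q : ℤ) ∣ c - c₀ ∧ (p : ℤ) ∣ f.eval (δ * c)}).ncard ≤
      ((F.roots.toFinset ×ˢ Finset.range (2 * H / (p * Q) + 1) : Finset (ZMod p × ℕ)) :
        Set (ZMod p × ℕ)).ncard := by
    apply Set.ncard_le_ncard_of_injOn (fun c : ℤ =>
      (((δ * c : ℤ) : ZMod p), ((c + H) / ((p * Q : ℕ) : ℤ)).toNat))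
    · rintro c ⟨hc, h2, h3⟩
      simp only [Finset.coe_product, Set.mem_prod, Finset.mem_coe]
      refine ⟨?_, block_mem hM hc⟩
      rw [Multiset.mem_toFinset, Polynomial.mem_roots hF0, Polynomial.IsRoot.def, hF]
      have h4 := (ZMod.intCast_zmod_eq_zero_iff_dvd _ p).2 h3
      have h5 := Polynomial.eval_intCast_map (Int.castRingHom (ZMod p)) f (δ * c)
      rw [h5]
      simpa using h4
    · rintro c ⟨hc, h2, h3⟩ c' ⟨hc', h2', h3'⟩ h
      simp only [Prod.mk.injEq] at h
      obtain ⟨ha, hb⟩ := h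
      have hδ' : (δ : ZMod p) ≠ 0 := by
        rw [Ne, ZMod.natCast_eq_zero_iff]; exact hδ
      have hcc : (c : ZMod p) = (c' : ZMod p) := by
        push_cast at ha
        exact mul_left_cancel₀ hδ' ha
      exact eq_of_div (dvd_of_both hp hpQ h2 h2' hcc) (block_inj hM hc hc' hb)
  rw [Set.ncard_coe_finset, Finset.card_product, Finset.card_range] at h1
  have h2 : F.roots.toFinset.card ≤ f.natDegree := by
    calc F.roots.toFinset.card ≤ Multiset.card F.roots := Multiset.toFinset_card_le _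
      _ ≤ F.natDegree := Polynomial.card_roots' _
      _ ≤ f.natDegree := Polynomial.natDegree_map_le
  have h3 : (((2 * H / (p * Q) : ℕ)) : ℝ) ≤ 2 * (H : ℝ) / (p * Q) := by
    have := @Nat.cast_div_le ℝ _ _ _ (2 * H) (p * Q)
    push_cast at this
    exact this
  calc (({c : ℤ | |c| ≤ H ∧ (Q : ℤ) ∣ c - c₀ ∧ (p : ℤ) ∣ f.eval (δ * c)}.ncard : ℕ) : ℝ) ≤
      ((F.roots.toFinset.card * (2 * H / (p * Q) + 1) : ℕ) : ℝ) := by exact_mod_cast h1
    _ = (F.roots.toFinset.card : ℝ) * (((2 * H / (p * Q) : ℕ) : ℝ) + 1) := by push_cast; ring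
    _ ≤ f.natDegree * (2 * (H : ℝ) / (p * Q) + 1) := by
      gcongr

/-- the number of zeros of a nonzero polynomial modulo `p` -/
theorem sz_card {ι : Type} [Fintype ι] {k : Type} [Field k] [Fintype k] [DecidableEq k]
    [DecidableEq ι] (D : MvPolynomial ι k) (hD : D ≠ 0) :
    ((Finset.univ.filter fun x : ι → k => eval x D = 0).card : ℝ) ≤
      D.totalDegree * (Fintype.card k : ℝ) ^ Fintype.card ι / Fintype.card k := by
  classical
  set e := Fintype.equivFin ι with he
  set n := Fintype.card ι with hn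
  set D' := rename e D with hD'
  have hD0 : D' ≠ 0 := by
    intro h
    apply hD
    exact rename_injective e e.injective (by rw [map_zero]; exact h)
  have h1 := schwartz_zippel_totalDegree hD0 (Finset.univ : Finset k)
  have h2 : (Finset.univ.filter fun x : ι → k => eval x D = 0).card =
      (Finset.filter (fun f => eval f D' = 0) (Fintype.piFinset fun _ : Fin n =>
        (Finset.univ : Finset k))).card := by
    apply Finset.card_bij (fun (x : ι → k) _ => x ∘ e.symm)
    · intro x hx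
      simp only [Finset.mem_filter, Finset.mem_univ, true_and] at hx
      simp only [Finset.mem_filter, Fintype.mem_piFinset, Finset.mem_univ, implies_true, true_and]
      rw [hD', eval_rename]
      have : (x ∘ e.symm) ∘ e = x := by ext i; simp
      rw [this]
      exact hx
    · intro x _ y _ h
      ext i
      have := congrFun h (e i)
      simpa using this
    · intro y hy
      refine ⟨y ∘ e, ?_, ?_⟩
      · simp only [Finset.mem_filter, Fintype.mem_piFinset, Finset.mem_univ, implies_true,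
          true_and] at hy
        simp only [Finset.mem_filter, Finset.mem_univ, true_and]
        rw [hD', eval_rename] at hy
        exact hy
      · ext i; simp
  rw [← h2, Finset.card_univ] at h1
  have h3 : ((Finset.univ.filter fun x : ι → k => eval x D = 0).card : ℝ) /
      (Fintype.card k : ℝ) ^ n ≤ (D'.totalDegree : ℝ) / Fintype.card k := by
    have := (NNRat.cast_le (K := ℝ)).2 h1
    push_cast at this
    exact this
  have h4 : D'.totalDegree ≤ D.totalDegree := totalDegree_rename_le _ _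
  have hk : (0 : ℝ) < Fintype.card k := by exact_mod_cast Fintype.card_pos
  rw [div_le_iff₀ (by positivity)] at h3
  calc ((Finset.univ.filter fun x : ι → k => eval x D = 0).card : ℝ)
      ≤ (D'.totalDegree : ℝ) / Fintype.card k * (Fintype.card k : ℝ) ^ n := h3
    _ ≤ (D.totalDegree : ℝ) / Fintype.card k * (Fintype.card k : ℝ) ^ n := by gcongr
    _ = _ := by ring

theorem t_EKA : S_EKA := by
  classical
  intro ι _ Δ hΔ
  obtain ⟨m, hm⟩ := ne_zero_iff.1 hΔ
  refine ⟨Δ.totalDegree * 5 ^ Fintype.card ι + 1, by positivity, (coeff m Δ).natAbs + 1, ?_⟩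
  intro Q hQ p hp hP hpQ b₀ H hH
  have : Fact p.Prime := ⟨hp⟩
  set D : MvPolynomial ι (ZMod p) := map (Int.castRingHom (ZMod p)) Δ with hD
  have hD0 : D ≠ 0 := by
    rw [ne_zero_iff]
    refine ⟨m, ?_⟩
    rw [hD, coeff_map]
    intro h
    have h1 : (p : ℤ) ∣ coeff m Δ := by
      rw [← ZMod.intCast_zmod_eq_zero_iff_dvd]; simpa using h
    have h2 : p ∣ (coeff m Δ).natAbs := by
      rw [← Int.natCast_dvd]; exact h1
    have h3 := Nat.le_of_dvd (Int.natAbs_pos.2 hm) h2
    omega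
  have hM : 0 < p * Q := Nat.mul_pos hp.pos hQ
  set Z : Finset (ι → ZMod p) := Finset.univ.filter fun x : ι → ZMod p => eval x D = 0 with hZ
  have h1 : ({b : ι → ℤ | (∀ i, |b i| ≤ 2 * H ∧ (Q : ℤ) ∣ b i - b₀ i) ∧
      (p : ℤ) ∣ eval b Δ}).ncard ≤
      ((Z ×ˢ Fintype.piFinset (fun _ : ι => Finset.range (2 * (2 * H) / (p * Q) + 1)) :
        Finset ((ι → ZMod p) × (ι → ℕ))) : Set ((ι → ZMod p) × (ι → ℕ))).ncard := by
    apply Set.ncard_le_ncard_of_injOn (fun b : ι → ℤ =>
      ((fun i => ((b i : ℤ) : ZMod p)),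
        (fun i => ((b i + (2 * H : ℕ)) / ((p * Q : ℕ) : ℤ)).toNat)))
    · rintro b ⟨hb, h3⟩
      simp only [Finset.coe_product, Set.mem_prod, Finset.mem_coe]
      refine ⟨?_, ?_⟩
      · rw [hZ, Finset.mem_filter]
        refine ⟨Finset.mem_univ _, ?_⟩
        have h4 := (ZMod.intCast_zmod_eq_zero_iff_dvd _ p).2 h3
        have h5 := map_eval (Int.castRingHom (ZMod p)) b Δ
        rw [hD]
        exact h5.symm.trans h4
      · rw [Fintype.mem_piFinset]
        intro i
        exact block_mem hM (by have := (hb i).1; push_cast; exact this)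
    · rintro b ⟨hb, h3⟩ b' ⟨hb', h3'⟩ h
      simp only [Prod.mk.injEq] at h
      obtain ⟨h4, h5⟩ := h
      ext i
      exact eq_of_div (dvd_of_both hp hpQ (hb i).2 (hb' i).2 (congrFun h4 i))
        (block_inj hM (by have := (hb i).1; push_cast; exact this)
          (by have := (hb' i).1; push_cast; exact this) (congrFun h5 i))
  rw [Set.ncard_coe_finset, Finset.card_product, Fintype.card_piFinset] at h1
  simp only [Finset.card_range, Finset.prod_const, Finset.card_univ] at h1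
  have h2 := sz_card D hD0
  rw [ZMod.card] at h2
  have h3 : (((2 * (2 * H) / (p * Q) + 1 : ℕ)) : ℝ) ≤ 5 * (H : ℝ) / (p * Q) := by
    have h4 := @Nat.cast_div_le ℝ _ _ _ (2 * (2 * H)) (p * Q)
    push_cast at h4 ⊢
    have h5 : (1 : ℝ) ≤ H / (p * Q) := by
      rw [le_div_iff₀ (by exact_mod_cast hM), one_mul]
      exact_mod_cast hH
    have h6 : 5 * (H : ℝ) / (p * Q) = 2 * (2 * H) / (p * Q) + H / (p * Q) := by ring
    rw [h6]
    linarith
  have h4 : D.totalDegree ≤ Δ.totalDegree := by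
    rw [totalDegree, totalDegree]
    exact Finset.sup_mono (support_map_subset _ _)
  have hp0 : (0 : ℝ) < p := by exact_mod_cast hp.pos
  have hQ0 : (0 : ℝ) < Q := by exact_mod_cast hQ
  calc (({b : ι → ℤ | (∀ i, |b i| ≤ 2 * H ∧ (Q : ℤ) ∣ b i - b₀ i) ∧
      (p : ℤ) ∣ eval b Δ}.ncard : ℕ) : ℝ) ≤
      ((Z.card * (2 * (2 * H) / (p * Q) + 1) ^ Fintype.card ι : ℕ) : ℝ) := by exact_mod_cast h1
    _ = (Z.card : ℝ) * (((2 * (2 * H) / (p * Q) + 1 : ℕ)) : ℝ) ^ Fintype.card ι := by push_cast; ring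
    _ ≤ (D.totalDegree * (p : ℝ) ^ Fintype.card ι / p) *
        (5 * (H : ℝ) / (p * Q)) ^ Fintype.card ι := by
      gcongr
    _ ≤ (Δ.totalDegree * (p : ℝ) ^ Fintype.card ι / p) *
        (5 * (H : ℝ) / (p * Q)) ^ Fintype.card ι := by
      gcongr
    _ = (Δ.totalDegree * 5 ^ Fintype.card ι) / p * ((H : ℝ) / Q) ^ Fintype.card ι := by
      rw [div_pow, mul_pow, mul_pow, div_pow]
      field_simp
    _ ≤ (Δ.totalDegree * 5 ^ Fintype.card ι + 1) / p * ((H : ℝ) / Q) ^ Fintype.card ι := by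
      gcongr
      linarith

end Pool.Agent.K3h97.ND
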